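import Mathlib

set_option autoImplicit false

namespace Pool.Agent.Results.MP_52d248_al.RationalAbelianization

open CategoryTheory TensorProduct

universe u

/-! ### Definitions of the problem -/

/-- `(L, η)` is a localization functor on groups: `L(η_G)` and `η_{LG}` are equal isomorphisms. -/
structure IsLocalization (L : GrpCat.{u} ⥤ GrpCat.{u}) (η : 𝟭 GrpCat.{u} ⟶ L) : Prop where
  eq : ∀ G : GrpCat.{u}, L.map (η.app G) = η.app (L.obj G)
  iso : ∀ G : GrpCat.{u}, IsIso (η.app (L.obj G))

/-- `1 → N → E → G → 1` is a short exact sequence of groups. -/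
structure IsExtension {N E G : GrpCat.{u}} (i : N ⟶ E) (p : E ⟶ G) : Prop where
  inj : Function.Injective i
  exact : ∀ e : E, p e = 1 ↔ ∃ n : N, i n = e
  surj : Function.Surjective p

/-- The fibre product `E ×_G H`. -/
def fibre {E G H : GrpCat.{u}} (p : E ⟶ G) (α : H ⟶ G) : Subgroup (E × H) where
  carrier := {x | p x.1 = α x.2}
  one_mem' := by simp
  mul_mem' := by
    intro x y hx hy
    simp only [Set.mem_ofPred_eq] at hx hy ⊢
    rw [Prod.fst_mul, Prod.snd_mul, map_mul, map_mul, hx, hy]
  inv_mem' := by
    intro x hx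
    simp only [Set.mem_ofPred_eq] at hx ⊢
    rw [Prod.fst_inv, Prod.snd_inv, map_inv, map_inv, hx]

/-- The map `N → E ×_G H`. -/
def fibreIn {N E G H : GrpCat.{u}} (i : N ⟶ E) (p : E ⟶ G) (α : H ⟶ G)
    (h : ∀ n : N, p (i n) = 1) : N ⟶ GrpCat.of (fibre p α) :=
  GrpCat.ofHom
    { toFun := fun n => ⟨(i n, 1), by show p (i n) = α 1; rw [h, map_one]⟩
      map_one' := by
        apply Subtype.ext
        simp
      map_mul' := by
        intro a b
        apply Subtype.ext
        simp }

/-- The projection `E ×_G H → H`. -/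
def fibreSnd {E G H : GrpCat.{u}} (p : E ⟶ G) (α : H ⟶ G) : GrpCat.of (fibre p α) ⟶ H :=
  GrpCat.ofHom ((MonoidHom.snd E H).comp (fibre p α).subtype)

/-- `L` is conditionally flat: the pullback of every `L`-flat extension is `L`-flat. -/
def ConditionallyFlat (L : GrpCat.{u} ⥤ GrpCat.{u}) : Prop :=
  ∀ (N E G H : GrpCat.{u}) (i : N ⟶ E) (p : E ⟶ G) (α : H ⟶ G) (h : IsExtension i p),
    IsExtension (L.map i) (L.map p) →
      IsExtension (L.map (fibreIn i p α (fun n => (h.exact (i n)).2 ⟨n, rfl⟩)))
        (L.map (fibreSnd p α))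

/-- `L` is an epireflection: every `η_G` is surjective. -/
def IsEpireflection {L : GrpCat.{u} ⥤ GrpCat.{u}} (η : 𝟭 GrpCat.{u} ⟶ L) : Prop :=
  ∀ G : GrpCat.{u}, Function.Surjective (η.app G)

/-! ### Rational abelianization -/

/-- The rational abelianization, written additively. -/
abbrev RA (G : Type u) [Group G] : Type u := ℚ ⊗[ℤ] (Additive (Abelianization G))

/-- The map induced on abelianizations, as a linear map. -/
def abMap {G H : Type u} [Group G] [Group H] (f : G →* H) :
    Additive (Abelianization G) →ₗ[ℤ] Additive (Abelianization H) :=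
  (MonoidHom.toAdditive (Abelianization.map f)).toIntLinearMap

/-- The map induced on rational abelianizations. -/
noncomputable def raMap {G H : Type u} [Group G] [Group H] (f : G →* H) : RA G →ₗ[ℤ] RA H :=
  LinearMap.lTensor ℚ (abMap f)

/-- The canonical element of the rational abelianization. -/
def ab {G : Type u} [Group G] (g : G) : Additive (Abelianization G) :=
  Additive.ofMul (Abelianization.of g)

lemma ab_mul {G : Type u} [Group G] (g h : G) : ab (g * h) = ab g + ab h := rfl

lemma abMap_ab {G H : Type u} [Group G] [Group H] (f : G →* H) (g : G) :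
    abMap f (ab g) = ab (f g) := rfl

lemma ab_surj {G : Type u} [Group G] (x : Additive (Abelianization G)) : ∃ g : G, ab g = x := by
  obtain ⟨g, hg⟩ := QuotientGroup.mk_surjective (Additive.toMul x)
  exact ⟨g, hg⟩

lemma raMap_tmul {G H : Type u} [Group G] [Group H] (f : G →* H) (q : ℚ) (g : G) :
    raMap f (q ⊗ₜ ab g) = q ⊗ₜ ab (f g) := rfl

lemma ra_ext {G : Type u} [Group G] {M : Type u} [AddCommGroup M] (f f' : RA G →ₗ[ℤ] M)
    (h : ∀ (q : ℚ) (g : G), f (q ⊗ₜ ab g) = f' (q ⊗ₜ ab g)) : f = f' := by
  apply TensorProduct.ext'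
  intro q x
  obtain ⟨g, rfl⟩ := ab_surj x
  exact h q g

lemma raMap_id (G : Type u) [Group G] : raMap (MonoidHom.id G) = LinearMap.id :=
  ra_ext _ _ (fun _ _ => rfl)

lemma raMap_comp {G H K : Type u} [Group G] [Group H] [Group K] (f : G →* H) (g : H →* K) :
    raMap (g.comp f) = (raMap g).comp (raMap f) :=
  ra_ext _ _ (fun _ _ => rfl)

/-- The functor. -/
noncomputable def LL : GrpCat.{u} ⥤ GrpCat.{u} where
  obj G := GrpCat.of (Multiplicative (RA G))
  map f := GrpCat.ofHom (AddMonoidHom.toMultiplicative (raMap f.hom).toAddMonoidHom)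
  map_id G := by
    apply GrpCat.hom_ext
    apply MonoidHom.ext
    intro x
    exact LinearMap.congr_fun (raMap_id G) (Multiplicative.toAdd x)
  map_comp f g := by
    apply GrpCat.hom_ext
    apply MonoidHom.ext
    intro x
    exact LinearMap.congr_fun (raMap_comp f.hom g.hom) (Multiplicative.toAdd x)

lemma LL_map_apply {G H : GrpCat.{u}} (f : G ⟶ H) (x : RA G) :
    (LL.map f : Multiplicative (RA G) → Multiplicative (RA H)) (Multiplicative.ofAdd x) =
      Multiplicative.ofAdd (raMap f.hom x) := rfl

/-- The unit, as a homomorphism. -/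
noncomputable def unitHom (G : Type u) [Group G] : G →* Multiplicative (RA G) where
  toFun g := Multiplicative.ofAdd ((1 : ℚ) ⊗ₜ ab g)
  map_one' := by
    have : ab (1 : G) = 0 := rfl
    rw [this, TensorProduct.tmul_zero]
    rfl
  map_mul' g h := by
    rw [ab_mul, TensorProduct.tmul_add]
    rfl

/-- The unit. -/
noncomputable def eta : 𝟭 GrpCat.{u} ⟶ LL where
  app G := GrpCat.ofHom (unitHom G)
  naturality := by
    intro G H f
    rfl

/-- A torsion-free divisibility argument. -/
lemma tmul_ab {G : Type u} [Group G] {M : Type u} [AddCommGroup M] [Module ℚ M]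
    (f : RA G →ₗ[ℤ] M) (q : ℚ) (g : G) : f (q ⊗ₜ ab g) = q • f ((1 : ℚ) ⊗ₜ ab g) := by
  have h : ∀ (F : ℚ →+ M) (q : ℚ), F q = q • F 1 := by
    intro F q
    have := map_rat_smul F q 1
    simpa using this
  let F : ℚ →+ M :=
    { toFun := fun q => f (q ⊗ₜ ab g)
      map_zero' := by rw [TensorProduct.zero_tmul, map_zero]
      map_add' := fun a b => by rw [TensorProduct.add_tmul, map_add] }
  exact h F q

/-- Linear maps into rational vector spaces are determined by their values on group elements. -/
lemma ra_ext' {G : Type u} [Group G] {M : Type u} [AddCommGroup M] [Module ℚ M]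
    (f f' : RA G →ₗ[ℤ] M) (h : ∀ g : G, f ((1 : ℚ) ⊗ₜ ab g) = f' ((1 : ℚ) ⊗ₜ ab g)) :
    f = f' := by
  apply ra_ext
  intro q g
  rw [tmul_ab f, h, ← tmul_ab f']

/-- The unit of a rational vector space, seen as a group, is bijective. -/
lemma unit_bijective (M : Type u) [AddCommGroup M] [Module ℚ M] :
    Function.Bijective (unitHom (Multiplicative M)) := by
  -- the retraction
  let r0 : Additive (Abelianization (Multiplicative M)) →+ M :=
    MonoidHom.toAdditiveLeft (Abelianization.lift (MonoidHom.id (Multiplicative M)))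
  have hr0 : ∀ m : M, r0 (ab (Multiplicative.ofAdd m)) = m := fun m => rfl
  let r : RA (Multiplicative M) →ₗ[ℤ] M :=
    TensorProduct.lift
      { toFun := fun q => (q • (1 : M →ₗ[ℚ] M)).restrictScalars ℤ ∘ₗ r0.toIntLinearMap
        map_add' := fun a b => by
          ext x
          simp [add_smul]
        map_smul' := fun a b => by
          ext x
          simp only [LinearMap.coe_comp, LinearMap.coe_restrictScalars, Function.comp_apply,
            LinearMap.smul_apply, Module.End.one_apply, smul_eq_mul, zsmul_eq_mul, mul_smul,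
            RingHom.id_apply]
          exact Int.cast_smul_eq_zsmul ℚ a _ }
  have hr : ∀ (q : ℚ) (m : M), r (q ⊗ₜ ab (Multiplicative.ofAdd m)) = q • m := fun q m => rfl
  constructor
  · intro a b hab
    have h1 := congrArg (fun x : Multiplicative (RA (Multiplicative M)) => r (Multiplicative.toAdd x))
      hab
    have h2 : ∀ a : Multiplicative M, r (Multiplicative.toAdd (unitHom (Multiplicative M) a)) =
        Multiplicative.toAdd a := by
      intro a
      show r ((1 : ℚ) ⊗ₜ ab (Multiplicative.ofAdd (Multiplicative.toAdd a))) = _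
      rw [hr, one_smul]
    simp only [h2] at h1
    exact Multiplicative.toAdd.injective h1
  · intro x
    refine ⟨Multiplicative.ofAdd (r (Multiplicative.toAdd x)), ?_⟩
    -- both sides are additive in `x`
    let U : RA (Multiplicative M) →ₗ[ℤ] RA (Multiplicative M) :=
      { toFun := fun y => Multiplicative.toAdd
          (unitHom (Multiplicative M) (Multiplicative.ofAdd (r y)))
        map_add' := fun a b => by
          rw [map_add, ofAdd_add, map_mul]
          rfl
        map_smul' := fun a b => by
          rw [map_smul, ofAdd_zsmul, map_zpow]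
          rfl }
    have hU : U = LinearMap.id := by
      apply ra_ext'
      intro g
      show (1 : ℚ) ⊗ₜ[ℤ] ab (Multiplicative.ofAdd (r ((1 : ℚ) ⊗ₜ ab g))) = (1 : ℚ) ⊗ₜ[ℤ] ab g
      have : r ((1 : ℚ) ⊗ₜ ab g) = Multiplicative.toAdd g := by
        have := hr 1 (Multiplicative.toAdd g)
        rw [one_smul] at this
        exact this
      rw [this]
      rfl
    exact LinearMap.congr_fun hU (Multiplicative.toAdd x)

lemma isLocalization : IsLocalization LL.{u} eta where
  eq G := by
    apply GrpCat.hom_ext
    apply MonoidHom.ext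
    intro x
    let f' : RA G →ₗ[ℤ] RA (Multiplicative (RA G)) :=
      { toFun := fun y => Multiplicative.toAdd (unitHom (Multiplicative (RA G))
          (Multiplicative.ofAdd y))
        map_add' := fun a b => by
          rw [ofAdd_add, map_mul]
          rfl
        map_smul' := fun a b => by
          rw [ofAdd_zsmul, map_zpow]
          rfl }
    have h : raMap (unitHom G) = f' := by
      apply ra_ext'
      intro g
      rfl
    exact LinearMap.congr_fun h (Multiplicative.toAdd x)
  iso G := by
    have h : Function.Bijective (eta.app (LL.obj G)) := unit_bijective (RA G)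
    exact (ConcreteCategory.isIso_iff_bijective _).2 h

/-- Right exactness. -/
lemma right_exact {N E G : GrpCat.{u}} {i : N ⟶ E} {p : E ⟶ G} (h : IsExtension i p) :
    Function.Exact (raMap i.hom) (raMap p.hom) ∧ Function.Surjective (raMap p.hom) := by
  have hsurj : Function.Surjective (abMap p.hom) := by
    intro x
    obtain ⟨g, rfl⟩ := ab_surj x
    obtain ⟨e, rfl⟩ := h.surj g
    exact ⟨ab e, rfl⟩
  have hex : Function.Exact (abMap i.hom) (abMap p.hom) := by
    intro x
    constructor
    · intro hx
      obtain ⟨e, rfl⟩ := ab_surj x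
      have h1 : Abelianization.of (p.hom e) = 1 := hx
      have h2 : p.hom e ∈ commutator G := (QuotientGroup.eq_one_iff _).1 h1
      have h3 : commutator G = (commutator E).map p.hom := by
        rw [commutator_def, commutator_def, Subgroup.map_commutator]
        have : (⊤ : Subgroup E).map p.hom = ⊤ := Subgroup.map_top_of_surjective _ h.surj
        rw [this]
      rw [h3] at h2
      obtain ⟨c, hc, hce⟩ := h2
      have h4 : p (c⁻¹ * e) = 1 := by
        show p.hom (c⁻¹ * e) = 1
        rw [map_mul, map_inv, hce, inv_mul_cancel]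
      obtain ⟨n, hn⟩ := (h.exact _).1 h4
      refine ⟨ab n, ?_⟩
      show ab (i.hom n) = ab e
      have h5 : i.hom n = c⁻¹ * e := hn
      rw [h5, ab_mul]
      have h6 : Abelianization.of c = 1 := (QuotientGroup.eq_one_iff _).2 hc
      have h7 : ab (c⁻¹) = 0 := by
        show Additive.ofMul (Abelianization.of c⁻¹) = 0
        rw [map_inv, h6, inv_one]
        rfl
      rw [h7, zero_add]
    · rintro ⟨y, rfl⟩
      obtain ⟨n, rfl⟩ := ab_surj y
      show ab (p.hom (i.hom n)) = 0
      have : p.hom (i.hom n) = 1 := (h.exact (i n)).2 ⟨n, rfl⟩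
      rw [this]
      rfl
  exact ⟨lTensor_exact ℚ hex hsurj, LinearMap.lTensor_surjective ℚ hsurj⟩

/-- The image of an extension is an extension as soon as its first map is injective. -/
lemma isExtension_of_inj {N E G : GrpCat.{u}} {i : N ⟶ E} {p : E ⟶ G} (h : IsExtension i p)
    (hinj : Function.Injective (raMap i.hom)) : IsExtension (LL.map i) (LL.map p) where
  inj := by
    intro a b hab
    exact Multiplicative.toAdd.injective (hinj hab)
  exact := by
    intro e
    constructor
    · intro he
      have h1 : raMap p.hom (Multiplicative.toAdd e) = 0 := he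
      obtain ⟨n, hn⟩ := ((right_exact h).1 _).1 h1
      exact ⟨Multiplicative.ofAdd n, hn⟩
    · rintro ⟨n, rfl⟩
      exact ((right_exact h).1 _).2 ⟨Multiplicative.toAdd n, rfl⟩
  surj := by
    intro g
    obtain ⟨e, he⟩ := (right_exact h).2 (Multiplicative.toAdd g)
    exact ⟨Multiplicative.ofAdd e, he⟩

lemma isExtension_fibre {N E G H : GrpCat.{u}} {i : N ⟶ E} {p : E ⟶ G} (α : H ⟶ G)
    (h : IsExtension i p) :
    IsExtension (fibreIn i p α (fun n => (h.exact (i n)).2 ⟨n, rfl⟩)) (fibreSnd p α) where
  inj := by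
    intro a b hab
    have : i a = i b := congrArg (fun x : fibre p α => x.1.1) hab
    exact h.inj this
  exact := by
    intro e
    constructor
    · intro he
      have he2 : e.1.2 = 1 := he
      have he1 : p e.1.1 = 1 := by
        have : p e.1.1 = α e.1.2 := e.2
        rw [this, he2, map_one]
      obtain ⟨n, hn⟩ := (h.exact _).1 he1
      refine ⟨n, ?_⟩
      apply Subtype.ext
      exact Prod.ext hn he2.symm
    · rintro ⟨n, rfl⟩
      rfl
  surj := by
    intro x
    obtain ⟨e, he⟩ := h.surj (α x)
    exact ⟨⟨(e, x), he⟩, rfl⟩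

lemma conditionallyFlat : ConditionallyFlat LL.{u} := by
  intro N E G H i p α h hL
  apply isExtension_of_inj (isExtension_fibre α h)
  have h1 : Function.Injective (raMap i.hom) := by
    intro a b hab
    exact Multiplicative.ofAdd.injective (hL.inj (a₁ := Multiplicative.ofAdd a)
      (a₂ := Multiplicative.ofAdd b) hab)
  have h2 : raMap i.hom = (raMap ((MonoidHom.fst E H).comp (fibre p α).subtype)).comp
      (raMap (fibreIn i p α (fun n => (h.exact (i n)).2 ⟨n, rfl⟩)).hom) := by
    rw [← raMap_comp]
    rfl
  rw [h2] at h1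
  exact Function.Injective.of_comp h1

/-- There is a localization functor on the category of groups that is conditionally flat but is not
an epireflection. -/
theorem result : ∃ (L : GrpCat.{u} ⥤ GrpCat.{u}) (η : 𝟭 GrpCat.{u} ⟶ L),
    IsLocalization L η ∧ ConditionallyFlat L ∧ ¬ IsEpireflection η := by
  refine ⟨LL, eta, isLocalization, conditionallyFlat, ?_⟩
  intro hepi
  -- the group of integers
  let Z : GrpCat.{u} := GrpCat.of (ULift.{u} (Multiplicative ℤ))
  let d : Multiplicative ℤ →* Multiplicative ℚ :=
    AddMonoidHom.toMultiplicative (Int.castAddHom ℚ)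
  let f0 : Additive (Abelianization Z) →+ ℚ :=
    MonoidHom.toAdditiveLeft (Abelianization.lift
      (d.comp (MulEquiv.ulift : ULift.{u} (Multiplicative ℤ) ≃* Multiplicative ℤ).toMonoidHom))
  let f : RA Z →ₗ[ℤ] ℚ :=
    TensorProduct.lift
      { toFun := fun q => (q • (1 : ℚ →ₗ[ℚ] ℚ)).restrictScalars ℤ ∘ₗ f0.toIntLinearMap
        map_add' := fun a b => by
          ext x
          simp [add_smul, add_mul]
        map_smul' := fun a b => by
          ext x
          simp [mul_assoc] }
  have hf : ∀ (q : ℚ) (n : ℤ), f (q ⊗ₜ ab (ULift.up (Multiplicative.ofAdd n) : Z)) = q * n :=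
    fun q n => rfl
  obtain ⟨z, hz⟩ := hepi Z (Multiplicative.ofAdd ((1 / 2 : ℚ) ⊗ₜ ab (ULift.up (Multiplicative.ofAdd 1) : Z)))
  have h1 : f ((1 : ℚ) ⊗ₜ ab z) = f ((1 / 2 : ℚ) ⊗ₜ ab (ULift.up (Multiplicative.ofAdd 1) : Z)) :=
    congrArg f hz
  have h2 := hf 1 (Multiplicative.toAdd z.down)
  have h3 := hf (1 / 2) 1
  have h4 : (1 : ℚ) * ((Multiplicative.toAdd z.down : ℤ) : ℚ) = 1 / 2 * ((1 : ℤ) : ℚ) := by
    rw [← h2, ← h3]
    exact h1
  have h5 : ((2 * Multiplicative.toAdd z.down : ℤ) : ℚ) = ((1 : ℤ) : ℚ) := by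
    push_cast at h4 ⊢
    linarith
  have h6 : 2 * Multiplicative.toAdd z.down = 1 := by exact_mod_cast h5
  omega

end Pool.Agent.Results.MP_52d248_al.RationalAbelianization
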